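import Mathlib

set_option autoImplicit false

namespace Pool.Agent.Results.MP_170294_an.Counter

open Set Polynomial

/-- The interval `[-1, 1]`. -/
abbrev Δ := Icc (-1 : ℝ) 1

/-- The Hausdorff difference (parameter one) of `f` and `g` at `x`. -/
noncomputable def hdiff (f g : ℝ → ℝ) (x : Δ) : ℝ :=
  max (⨅ ξ : Δ, max |(x : ℝ) - ξ| |f x - g ξ|) (⨅ ξ : Δ, max |(x : ℝ) - ξ| |f ξ - g x|)

/-- The Hausdorff distance of `f` and `g` on `[-1, 1]`. -/
noncomputable def hdist (f g : ℝ → ℝ) : ℝ := ⨆ x : Δ, hdiff f g x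

/-- Best Hausdorff approximation by real polynomials of degree at most `n`. -/
noncomputable def best (n : ℕ) (f : ℝ → ℝ) : ℝ :=
  ⨅ p : {p : ℝ[X] // p.natDegree ≤ n}, hdist f fun x => p.1.eval x

theorem bdd (u v : Δ → ℝ) : BddBelow (range fun ξ => max |u ξ| (v ξ)) :=
  ⟨0, by rintro _ ⟨ξ, rfl⟩; exact le_max_of_le_left (abs_nonneg _)⟩

instance : Nonempty Δ := ⟨⟨0, by norm_num⟩⟩

theorem hdiff_le (f g : ℝ → ℝ) (x : Δ) : hdiff f g x ≤ |f x - g x| :=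
  max_le ((ciInf_le (bdd _ _) x).trans (by simp)) ((ciInf_le (bdd _ _) x).trans (by simp))

theorem hdiff_nonneg (f g : ℝ → ℝ) (x : Δ) : 0 ≤ hdiff f g x :=
  le_max_of_le_left (le_ciInf fun _ => le_max_of_le_left (abs_nonneg _))

theorem upper : best 2 (fun x => |x|) ≤ 1 / 8 := by
  refine (ciInf_le ⟨0, ?_⟩ ⟨X ^ 2 + C (1 / 8), by compute_degree⟩).trans (ciSup_le fun x => ?_)
  · rintro _ ⟨p, rfl⟩
    exact Real.iSup_nonneg (hdiff_nonneg _ _)
  · refine (hdiff_le _ _ x).trans ?_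
    have h1 : |(x : ℝ)| ≤ 1 := abs_le.2 x.2
    have h2 := abs_nonneg (x : ℝ)
    simp only [eval_add, eval_pow, eval_X, eval_C]
    rw [← sq_abs (x : ℝ), abs_le]
    constructor <;> nlinarith [sq_nonneg (|(x : ℝ)| - 1 / 2)]

theorem lower : 3 / 20 ≤ best 2 fun x => max 0 (4 * x - 3) := by
  have : Nonempty {p : ℝ[X] // p.natDegree ≤ 2} := ⟨⟨0, by simp⟩⟩
  refine le_ciInf fun ⟨p, hp⟩ => ?_
  by_contra h
  rw [not_le] at h
  have hb : BddAbove (range (hdiff (fun x => max 0 (4 * x - 3)) fun x => p.eval x)) := by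
    obtain ⟨M, hM⟩ := isCompact_Icc.bddAbove_image (f := fun x : ℝ => |max 0 (4 * x - 3) - p.eval x|)
      (K := Δ) (by fun_prop)
    exact ⟨M, by rintro _ ⟨x, rfl⟩; exact (hdiff_le _ _ x).trans (hM ⟨x, x.2, rfl⟩)⟩
  have h1 : ∀ x : Δ, hdiff (fun x => max 0 (4 * x - 3)) (fun x => p.eval x) x < 3 / 20 :=
    fun x => (le_ciSup hb x).trans_lt h
  have h2 : ∀ x : ℝ, -1 ≤ x → x ≤ 3 / 5 → |p.eval x| < 3 / 20 := by
    intro x h1x h2x
    obtain ⟨ξ, hξ⟩ := exists_lt_of_ciInf_lt (max_lt_iff.1 (h1 ⟨x, h1x, by linarith⟩)).2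
    obtain ⟨a, b⟩ := max_lt_iff.1 hξ
    beta_reduce at b
    rw [max_eq_left (by linarith [show -(3 / 20) < x - ξ from (abs_lt.1 a).1])] at b
    simpa using b
  obtain ⟨ξ, hξ⟩ := exists_lt_of_ciInf_lt (max_lt_iff.1 (h1 ⟨1, by norm_num⟩)).1
  obtain ⟨a, b⟩ := max_lt_iff.1 hξ
  have a1 := abs_lt.1 (h2 (-1) le_rfl (by norm_num))
  have a2 := abs_lt.1 (h2 (-1 / 5) (by norm_num) (by norm_num))
  have a3 := abs_lt.1 (h2 (3 / 5) (by norm_num) le_rfl)
  have a4 := (abs_lt.1 a).2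
  have a5 := (abs_lt.1 b).2
  have a6 := ξ.2.2
  simp only [eval_eq_sum_range' (Nat.lt_succ_of_le hp), Finset.sum_range_succ,
    Finset.sum_range_zero] at a1 a2 a3 a5
  norm_num at a1 a2 a3 a4 a5
  generalize (ξ : ℝ) = t at *
  have e1 : 0 ≤ (t + 1 / 5) * (t - 3 / 5) := by nlinarith
  have e2 : 0 ≤ (t + 1) * (t - 3 / 5) := by nlinarith
  have e3 : 0 ≤ (t + 1) * (t + 1 / 5) := by nlinarith
  nlinarith [mul_le_mul_of_nonneg_left a1.2.le e1, mul_le_mul_of_nonneg_left a2.1.le e2,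
    mul_le_mul_of_nonneg_left a3.2.le e3]

/-- A continuous convex function from `[-1, 1]` to `[0, 1]` that is approximated by quadratic
polynomials strictly worse than `|x|` in the Hausdorff distance. -/
theorem result : ∃ (n : ℕ) (f : ℝ → ℝ), 1 ≤ n ∧ ContinuousOn f Δ ∧ ConvexOn ℝ Δ f ∧
    MapsTo f Δ (Icc 0 1) ∧ best n (fun x => |x|) < best n f := by
  refine ⟨2, fun x => max 0 (4 * x - 3), one_le_two, by fun_prop, ?_, ?_, ?_⟩
  · refine (convexOn_const 0 (convex_Icc _ _)).sup ⟨convex_Icc _ _, fun x _ y _ a b _ _ hab => ?_⟩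
    simp only [smul_eq_mul]
    nlinarith
  · intro x hx
    exact ⟨le_max_left _ _, max_le zero_le_one (by linarith [hx.2])⟩
  · linarith [upper, lower]

end Pool.Agent.Results.MP_170294_an.Counter
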